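import Pool.Agent.Lib.MP_7c536e_co.Defs

/-!
A certificate checker: every orientation of the 15-vertex graph `G15` has a `1`-forcing set of size
at most `7`.
-/

namespace Pool.Agent.Lib.MP_7c536e_co

/-- If some run of the rule from `S` colours everything, then every maximal run does. -/
theorem isForcingSet_of_reach {V : Type} [Finite V] [Nonempty V] {D : V → V → Prop} {k : ℕ}
    {S : Set V} (h : Relation.ReflTransGen (Step D k) S Set.univ) : IsForcingSet D k S := by
  refine ⟨?_, ?_⟩
  · rcases h.cases_head with h | ⟨B, ⟨u, hu, _⟩, _⟩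
    · rw [h]; exact Set.univ_nonempty
    · exact ⟨u, hu⟩
  · intro B hB hstop
    have hSB : S ⊆ B := by
      clear hstop h
      induction hB with
      | refl => exact subset_rfl
      | tail _ hstep ih =>
        obtain ⟨u, _, _, rfl⟩ := hstep
        exact ih.trans Set.subset_union_left
    have key : ∀ A, Relation.ReflTransGen (Step D k) S A → A ⊆ B := by
      intro A hA
      induction hA with
      | refl => exact hSB
      | tail _ hstep ih =>
        rename_i A0 A1 _
        obtain ⟨u, hu, hcard, rfl⟩ := hstep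
        have hle : {v | D u v ∧ v ∉ B}.ncard ≤ k := by
          refine le_trans (Set.ncard_le_ncard ?_ (Set.toFinite _)) hcard
          intro v hv
          exact ⟨hv.1, fun hA0 => hv.2 (ih hA0)⟩
        have := hstop (B ∪ {v | D u v}) ⟨u, ih hu, hle, rfl⟩
        intro v hv
        rcases hv with hv | hv
        · exact ih hv
        · rw [← this]; exact Or.inr hv
    exact Set.eq_univ_of_univ_subset (key _ h)

/-- Neighbour lists of the graph. -/
def nb : ℕ → List ℕ
  | 0 => [1, 2, 9]
  | 1 => [0, 2, 12]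
  | 2 => [0, 1, 14]
  | 3 => [4, 5, 10]
  | 4 => [3, 5, 13]
  | 5 => [3, 4, 12]
  | 6 => [7, 8, 11]
  | 7 => [6, 8, 14]
  | 8 => [6, 7, 13]
  | 9 => [10, 11, 0]
  | 10 => [9, 11, 3]
  | 11 => [9, 10, 6]
  | 12 => [1, 5]
  | 13 => [4, 8]
  | 14 => [7, 2]
  | _ => []

/-- The truncated tetrahedron with the three triangle-to-triangle edges of one hexagonal face
subdivided once. -/
def G15 : SimpleGraph (Fin 15) where
  Adj u v := v.val ∈ nb u.val
  symm := ⟨by decide⟩
  loopless := ⟨by decide⟩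

def toSet (A : ℕ) : Set (Fin 15) := {v | A.testBit v.val = true}

def canForce (K A u w : ℕ) : Bool :=
  Nat.blt u 15 && (Nat.blt w 15 && (A.testBit u && (K.testBit (16 * u + w) &&
    (nb u).all (fun x => Nat.beq x w || (A.testBit x || K.testBit (16 * x + u))))))

def run (K : ℕ) : ℕ → ℕ → ℕ → Bool
  | 0, A, _ => Nat.beq A 32767
  | f + 1, A, s => canForce K A (s % 16) (s / 16 % 16) && run K f (A ||| 2 ^ (s / 16 % 16)) (s / 256)

def vs : List (Fin 15) := [0, 1, 2, 3, 4, 5, 6, 7, 8, 9, 10, 11, 12, 13, 14]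

def pc (A : ℕ) : ℕ := (vs.filter (fun v => A.testBit v.val)).length

inductive Tr : Type
  | l : ℕ → Tr
  | n : ℕ → ℕ → Tr → Tr → Tr

def check : ℕ → Tr → Bool
  | K, Tr.l c => Nat.ble (pc (c % 65536)) 7 && run K 8 (c % 65536) (c / 65536)
  | K, Tr.n a b s t => Nat.blt a 15 && (Nat.blt b 15 && ((nb a).any (fun x => Nat.beq x b) &&
      (check (K ||| 2 ^ (16 * a + b)) s && check (K ||| 2 ^ (16 * b + a)) t)))

def Cons (D : Fin 15 → Fin 15 → Prop) (K : ℕ) : Prop :=
  ∀ u v : Fin 15, K.testBit (16 * u.val + v.val) = true → D u v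

theorem ncard_toSet_le (A : ℕ) : (toSet A).ncard ≤ pc A := by
  have hvs : ∀ v : Fin 15, v ∈ vs := by decide
  have : toSet A = ↑((vs.filter (fun v => A.testBit v.val)).toFinset) := by
    ext v
    simp [toSet, hvs v]
  rw [this, Set.ncard_coe_finset]
  exact List.toFinset_card_le _

theorem step_of_canForce {D : Fin 15 → Fin 15 → Prop} (hD : IsOrientation G15 D) {K A u w : ℕ}
    (hK : Cons D K) (h : canForce K A u w = true) :
    Step D 1 (toSet A) (toSet (A ||| 2 ^ w)) := by
  simp only [canForce, Bool.and_eq_true, Nat.blt_eq, List.all_eq_true, Bool.or_eq_true,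
    Nat.beq_eq] at h
  obtain ⟨hu, hw, hA, hKuw, hall⟩ := h
  have hDuw : D ⟨u, hu⟩ ⟨w, hw⟩ := hK ⟨u, hu⟩ ⟨w, hw⟩ hKuw
  have hout : ∀ v : Fin 15, D ⟨u, hu⟩ v → v = ⟨w, hw⟩ ∨ v ∈ toSet A := by
    intro v hv
    have hadj : G15.Adj ⟨u, hu⟩ v := hD.1 _ _ hv
    rcases hall v.val hadj with h1 | h1 | h1
    · exact Or.inl (Fin.ext h1)
    · exact Or.inr h1
    · have h2 : D v ⟨u, hu⟩ := hK v ⟨u, hu⟩ h1
      rcases hD.2 _ _ hadj with ⟨_, h3⟩ | ⟨_, h3⟩
      · exact absurd h2 h3
      · exact absurd hv h3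
  refine ⟨⟨u, hu⟩, hA, ?_, ?_⟩
  · have hsub : {v | D ⟨u, hu⟩ v ∧ v ∉ toSet A} ⊆ {⟨w, hw⟩} := by
      intro v hv
      rcases hout v hv.1 with h1 | h1
      · exact h1
      · exact absurd h1 hv.2
    simpa using Set.ncard_le_ncard hsub (Set.toFinite _)
  · ext v
    simp only [toSet, Set.mem_ofPred_eq, Nat.testBit_or, Bool.or_eq_true, Set.mem_union,
      Nat.testBit_two_pow, decide_eq_true_eq]
    constructor
    · rintro (h1 | h1)
      · exact Or.inl h1
      · right
        have : v = ⟨w, hw⟩ := Fin.ext h1.symm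
        rw [this]; exact hDuw
    · rintro (h1 | h1)
      · exact Or.inl h1
      · rcases hout v h1 with h2 | h2
        · right; rw [h2]
        · exact Or.inl h2

theorem toSet_full : toSet 32767 = Set.univ := by
  ext v
  simp only [toSet, Set.mem_ofPred_eq, Set.mem_univ, iff_true]
  revert v
  decide

theorem reach_of_run {D : Fin 15 → Fin 15 → Prop} (hD : IsOrientation G15 D) {K : ℕ}
    (hK : Cons D K) : ∀ (f A s : ℕ), run K f A s = true →
      Relation.ReflTransGen (Step D 1) (toSet A) Set.univ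
  | 0, A, s, h => by
    simp only [run, Nat.beq_eq] at h
    rw [h, toSet_full]
  | f + 1, A, s, h => by
    simp only [run, Bool.and_eq_true] at h
    exact Relation.ReflTransGen.head (step_of_canForce hD hK h.1) (reach_of_run hD hK f _ _ h.2)

theorem cons_or {D : Fin 15 → Fin 15 → Prop} {K : ℕ} (hK : Cons D K) {a b : Fin 15}
    (hab : D a b) : Cons D (K ||| 2 ^ (16 * a.val + b.val)) := by
  intro u v h
  simp only [Nat.testBit_or, Bool.or_eq_true, Nat.testBit_two_pow, decide_eq_true_eq] at h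
  rcases h with h | h
  · exact hK u v h
  · have hb := b.isLt
    have hv := v.isLt
    have h1 : u = a := Fin.ext (by omega)
    have h2 : v = b := Fin.ext (by omega)
    rw [h1, h2]; exact hab

theorem sound {D : Fin 15 → Fin 15 → Prop} (hD : IsOrientation G15 D) :
    ∀ (t : Tr) (K : ℕ), Cons D K → check K t = true →
      ∃ S : Set (Fin 15), IsForcingSet D 1 S ∧ S.ncard ≤ 7
  | Tr.l c, K, hK, h => by
    simp only [check, Bool.and_eq_true, Nat.ble_eq] at h
    exact ⟨toSet (c % 65536), isForcingSet_of_reach (reach_of_run hD hK _ _ _ h.2),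
      (ncard_toSet_le _).trans h.1⟩
  | Tr.n a b s t, K, hK, h => by
    simp only [check, Bool.and_eq_true, Nat.blt_eq, List.any_eq_true, Nat.beq_eq] at h
    obtain ⟨ha, hb, ⟨x, hx, rfl⟩, hs, ht⟩ := h
    have hadj : G15.Adj ⟨a, ha⟩ ⟨x, hb⟩ := hx
    rcases hD.2 _ _ hadj with ⟨h1, _⟩ | ⟨h1, _⟩
    · exact sound hD s _ (cons_or hK h1) hs
    · exact sound hD t _ (cons_or hK h1) ht

end Pool.Agent.Lib.MP_7c536e_co
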