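import Mathlib

/-!
Definitions for oriented `k`-forcing (problem MP_7c536e_co).
-/

namespace Pool.Agent.Lib.MP_7c536e_co

/-- `D` (with `D u v` meaning that `(u, v)` is an arc) is an orientation of the simple graph `G`:
every arc lies on an edge of `G`, and every edge `{u, v}` of `G` carries exactly one of the arcs
`(u, v)`, `(v, u)`. -/
def IsOrientation {V : Type} (G : SimpleGraph V) (D : V → V → Prop) : Prop :=
  (∀ u v, D u v → G.Adj u v) ∧
    ∀ u v, G.Adj u v → (D u v ∧ ¬ D v u) ∨ (D v u ∧ ¬ D u v)

/-- One application of the `k`-colour change rule, taking the coloured set `A` to the coloured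
set `B`: a coloured vertex `u` with at most `k` non-coloured out-neighbours colours all of them. -/
def Step {V : Type} (D : V → V → Prop) (k : ℕ) (A B : Set V) : Prop :=
  ∃ u ∈ A, {v | D u v ∧ v ∉ A}.ncard ≤ k ∧ B = A ∪ {v | D u v}

/-- `S` is a `k`-forcing set of `D`: it is nonempty, and whenever the rule is applied repeatedly,
starting from the coloured set `S`, until nothing changes any more, every vertex is coloured. -/
def IsForcingSet {V : Type} (D : V → V → Prop) (k : ℕ) (S : Set V) : Prop :=
  S.Nonempty ∧
    ∀ B : Set V, Relation.ReflTransGen (Step D k) S B → (∀ C, Step D k B C → C = B) →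
      B = Set.univ

/-- `m = F_k(D)`: `m` is the least size of a `k`-forcing set of `D`. -/
def IsForcingNumber {V : Type} (D : V → V → Prop) (k m : ℕ) : Prop :=
  IsLeast {s : ℕ | ∃ S : Set V, IsForcingSet D k S ∧ S.ncard = s} m

/-- `M = MOF_k(G)`: `M` is the maximum of `F_k(D)` over all orientations `D` of `G`. -/
def IsMOF {V : Type} (G : SimpleGraph V) (k M : ℕ) : Prop :=
  IsGreatest {m : ℕ | ∃ D : V → V → Prop, IsOrientation G D ∧ IsForcingNumber D k m} M

end Pool.Agent.Lib.MP_7c536e_co
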