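import Pool.Agent.Lib.MP_7c536e_co.Cert

namespace Pool.Agent.Lib.MP_7c536e_co

theorem exists_small {D : Fin 15 → Fin 15 → Prop} (hD : IsOrientation G15 D) :
    ∃ S : Set (Fin 15), IsForcingSet D 1 S ∧ S.ncard ≤ 7 :=
  sound hD cert 0 (fun u v h => by simp at h) cert_ok

theorem orientation_lt : IsOrientation G15 (fun u v => G15.Adj u v ∧ u < v) := by
  refine ⟨fun u v h => h.1, fun u v h => ?_⟩
  rcases lt_trichotomy u v with h1 | h1 | h1
  · exact Or.inl ⟨⟨h, h1⟩, fun h2 => lt_asymm h1 h2.2⟩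
  · exact absurd h1 h.ne
  · exact Or.inr ⟨⟨h.symm, h1⟩, fun h2 => lt_asymm h1 h2.2⟩

theorem G15_connected : G15.Connected := by
  have h : ∀ v : Fin 15, G15.Reachable 0 v := by
    have e : ∀ u v : Fin 15, v.val ∈ nb u.val → G15.Reachable u v := fun u v h =>
      SimpleGraph.Adj.reachable (G := G15) h
    have h1 := e 0 1 (by decide)
    have h2 := e 0 2 (by decide)
    have h9 := e 0 9 (by decide)
    have h10 := h9.trans (e 9 10 (by decide))
    have h11 := h9.trans (e 9 11 (by decide))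
    have h3 := h10.trans (e 10 3 (by decide))
    have h4 := h3.trans (e 3 4 (by decide))
    have h5 := h3.trans (e 3 5 (by decide))
    have h6 := h11.trans (e 11 6 (by decide))
    have h7 := h6.trans (e 6 7 (by decide))
    have h8 := h6.trans (e 6 8 (by decide))
    have h12 := h1.trans (e 1 12 (by decide))
    have h13 := h4.trans (e 4 13 (by decide))
    have h14 := h2.trans (e 2 14 (by decide))
    intro v
    fin_cases v
    exacts [SimpleGraph.Reachable.refl _, h1, h2, h3, h4, h5, h6, h7, h8, h9, h10, h11, h12, h13,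
      h14]
  exact SimpleGraph.Connected.mk (fun u v => (h u).symm.trans (h v))

theorem exists_MOF : ∃ M : ℕ, IsMOF G15 1 M ∧ M ≤ 7 := by
  classical
  set T : Set ℕ := {m : ℕ | ∃ D : Fin 15 → Fin 15 → Prop,
    IsOrientation G15 D ∧ IsForcingNumber D 1 m} with hT
  have hbd : ∀ m ∈ T, m ≤ 7 := by
    rintro m ⟨D, hD, hm⟩
    obtain ⟨S, hS, hc⟩ := exists_small hD
    exact (hm.2 ⟨S, hS, rfl⟩).trans hc
  have hne : T.Nonempty := by
    obtain ⟨S, hS, _⟩ := exists_small orientation_lt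
    have hex : ∃ s : ℕ, ∃ S : Set (Fin 15),
        IsForcingSet (fun u v => G15.Adj u v ∧ u < v) 1 S ∧ S.ncard = s := ⟨_, S, hS, rfl⟩
    exact ⟨Nat.find hex, _, orientation_lt, Nat.find_spec hex, fun s hs => Nat.find_min' hex hs⟩
  have hb : BddAbove T := ⟨7, hbd⟩
  exact ⟨sSup T, ⟨Nat.sSup_mem hne hb, fun m hm => le_csSup hb hm⟩, hbd _ (Nat.sSup_mem hne hb)⟩

end Pool.Agent.Lib.MP_7c536e_co
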